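import Pool.Agent.Y952.TP.Core52

/-!
# MP_c4753b_co, Q1: convex bodies with `δ_L(K) < δ_T(K)`, from dimension 48 on

For `48 ≤ d ≤ 52` and for every `d ≥ 56` there is a convex body `K ⊂ ℝ^d`, symmetric about the
origin, whose densest translative packing is strictly denser than its densest lattice packing. In
particular the smallest dimension of the question is at most `48`.

The definitions (in `Pool.Agent.H947R2.TP.Defs`) are the ones of the problem:

* `eball d R` is the Euclidean ball of radius `R` centred at the origin of `ℝ^d = Fin d → ℝ`,
* `tr x K = x + K`,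
* `IsPacking K X`: the translates `x + K`, `x ∈ X`, have pairwise disjoint interiors,
* `density K X = limsup_{R → ∞} vol (B_R ∩ ⋃_{x ∈ X} (x + K)) / vol B_R`,
* `IsLattice X`: `X` is the set of all integer combinations of a basis of `ℝ^d`,
* `deltaT K`, `deltaL K`: the suprema of the densities over all packings, respectively over all
  packings by a lattice of translation vectors.
-/

set_option autoImplicit false

namespace Pool.Agent.Results.MP_c4753b_co.FromDimensionFortyEight

open H947TP

/-- **Theorem.** For `48 ≤ d ≤ 52` and for every `d ≥ 56` there is a convex body `K` in `ℝ^d`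
(compact, convex, with nonempty interior), symmetric about the origin, with `δ_L(K) < δ_T(K)`. -/
theorem result : ∀ d : ℕ, ((48 ≤ d ∧ d ≤ 52) ∨ 56 ≤ d) →
    ∃ K : Set (Fin d → ℝ), Convex ℝ K ∧ IsCompact K ∧
    (interior K).Nonempty ∧ (∀ x ∈ K, -x ∈ K) ∧ deltaL K < deltaT K :=
  fun d hd => Pool.Agent.Y952.TP.main52 d hd

end Pool.Agent.Results.MP_c4753b_co.FromDimensionFortyEight
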